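import Pool.Agent.X278.SL.Conj
import Pool.Agent.W343.BSD.Stmt
import Pool.Agent.W343.BSD.KidaFinal

/-!
# Constant twists of cyclic extensions of prime degree

The `L`-functions of arbitrary abelian varieties over function fields in the cyclic extensions of prime
degree `ℓ` that become isomorphic over the extension of degree `ℓ` of the constants, tame or wild.
-/

set_option autoImplicit false
set_option linter.all false
set_option maxHeartbeats 4000000

open Polynomial FF Module Pool.Agent.W343.BSD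

namespace Pool.Agent.Results.MP_1d384c_nt.ConstantTwistsCyclic

section defs

/-- `Λ(T) = ∏ P_v(T ^ (deg v))⁻¹`, the product over the places `v` of `K` over `k`. -/
def IsProduct (k : Type) {K : Type} [Field k] [Field K] [Algebra k K] (P : Place k K → ℤ[X])
    (Λ : PowerSeries ℤ) : Prop :=
  Λ * eulerProd (fun v : Place k K => S.deg v)
    (fun v => ((expand ℤ (S.deg v) (P v) : ℤ[X]) : PowerSeries ℤ)) = 1

/-- `Λ(T) = ∏ P_v(χ(v) T ^ (deg v))⁻¹`, the product over the places `v` of `K` over `k`, twisted by the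
numbers `χ(v)`. -/
def IsTwist (k : Type) {K : Type} [Field k] [Field K] [Algebra k K] (P : Place k K → ℤ[X])
    (χ : Place k K → ℂ) (Λ : PowerSeries ℂ) : Prop :=
  Λ * eulerProd (fun v : Place k K => S.deg v)
    (fun v => ((expand ℂ (S.deg v) (((P v).map (Int.castRingHom ℂ)).comp (C (χ v) * X)) : ℂ[X]) :
      PowerSeries ℂ)) = 1

/-- `χ(v) = 0` for `v` in the finite set `B`, and `χ(v) ^ ℓ = 1` for the other places. -/
def HasOrder (ℓ : ℕ) {k K : Type} [Field k] [Field K] [Algebra k K] (B : Finset (Place k K))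
    (χ : Place k K → ℂ) : Prop :=
  (∀ v ∈ B, χ v = 0) ∧ ∀ v, v ∉ B → χ v ^ ℓ = 1

/-- The degree of the reduction of `P` modulo `p`. -/
noncomputable def unitDegree (p : ℕ) (P : ℤ[X]) : ℕ :=
  (P.map (Int.castRingHom (ZMod p))).natDegree

/-- The multiplicity modulo `ℓ` of the zero `1 / q` of `A`. -/
noncomputable def mult (ℓ : ℕ) [Fact ℓ.Prime] (q : ℕ) (A : ℤ[X]) : ℕ :=
  (A.map (Int.castRingHom (ZMod ℓ))).rootMultiplicity (q : ZMod ℓ)⁻¹

/-- The order of vanishing of `R` at `1 / q`. -/
noncomputable def order (q : ℕ) (R : ℤ[X]) : ℕ :=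
  (R.map (Int.castRingHom ℚ)).rootMultiplicity ((q : ℚ)⁻¹)

/-- The character `χ ξ ^ deg`. -/
noncomputable def tw {k K : Type} [Field k] [Field K] [Algebra k K] (χ : Place k K → ℂ) (ξ : ℂ) :
    Place k K → ℂ := fun v => χ v * ξ ^ S.deg v

/-- The Artin formalism: `R` is the product of `U` and of the twisted products for the powers
`χ, χ ^ 2, ..., χ ^ (ℓ - 1)`. -/
def IsArtin (k : Type) {K : Type} [Field k] [Field K] [Algebra k K] (ℓ : ℕ)
    (P : Place k K → ℤ[X]) (χ : Place k K → ℂ) (U R : ℤ[X]) : Prop :=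
  ∃ Λ : ℕ → PowerSeries ℂ, (∀ m ∈ Finset.Ico 1 ℓ, IsTwist k P (fun v => χ v ^ m) (Λ m)) ∧
    ((R.map (Int.castRingHom ℂ) : ℂ[X]) : PowerSeries ℂ) =
      ((U.map (Int.castRingHom ℂ) : ℂ[X]) : PowerSeries ℂ) * ∏ m ∈ Finset.Ico 1 ℓ, Λ m

end defs

/-- Let `K` be the function field of a curve over the field `k` with `q` elements, and `A` an abelian
variety over `K` with the Euler factors `P_v`, whose `L`-function is the polynomial `U` (no constant
part); formally the `P_v` are any integral polynomials with `P_v(0) = 1` such that the product of the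
`P_v(T ^ (deg v))⁻¹` is a polynomial. Let `ℓ` be ANY prime number, which may be the characteristic, and
`L` a cyclic extension of `K` of degree `ℓ` with the character `χ`, as a function on the places,
where `χ(v) = 0` in the finite set `B` of the ramified places: Kummer and Artin–Schreier
extensions, unramified extensions, and all other ones, also if `ℓ` does not divide `q - 1`. At the places
of `B` the twist of `A` by `χ` has no inertia invariants (for instance at all ramified places of good
reduction), and `L(A ⊗ χ, T)` is the polynomial `Q` (Grothendieck).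

For the `ℓ`-th roots of unity `ξ` let `L_ξ` be the cyclic extension of `K` with the character
`χ ξ ^ deg`; these are the `ℓ` extensions of `K` that become isomorphic to `L` over the extension of
degree `ℓ` of the constants (for `y ^ p - y = f` they are `y ^ p - y = f + u`, for
`y ^ ℓ = f` they are `y ^ ℓ = u f`, with constants `u`). By the Artin formalism
`L(A/L_ξ, T)` is the product of `U` and of the `L(A ⊗ (χ ξ ^ deg) ^ m, T)`, `0 < m < ℓ`.

Theorem: there are numbers `μ(ξ)` such that `ord L(A/L_ξ) = ord L(A/K) + (ℓ - 1) μ(ξ)` for the orders of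
vanishing at the central point `1 / q`, and

(1) if `ℓ` is not the characteristic, the sum of the `μ(ξ)` over all `ξ` is at most the multiplicity
modulo `ℓ` of the zero `1 / q` of `L(A/K, T)` plus those of the `P_v(T ^ (deg v))` for the places of
`B`;

(2) if `ℓ` is the characteristic and the zeros of `Q` have the absolute value `1 / q` (Deligne), the sum
is at most `deg Q - 2 (unitDegree U + ∑ deg v unitDegree P_v)`, the number of the zeros of
`L(A ⊗ χ, T)` of slopes strictly between `0` and `2`.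

So the rank of `A` can grow in at most `M` of the `ℓ` extensions `L_ξ`, with the bound `M` of (1) or (2):
for all the others `ord L(A/L_ξ) = ord L(A/K)`, and if the rank of `A(K)` is the order of vanishing of
`L(A/K, T)` then, by Tate's inequality, the conjecture of Birch and Swinnerton-Dyer holds for `A` over
`L_ξ`, with the same rank. For all but finitely many `ℓ` the first term in (1) is the order of vanishing
of `L(A/K, T)`, and the term for `v` is zero if `ℓ` does not divide the number of points of the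
reduction at `v`; the degree of the conductor of `χ` is arbitrary. In the wild case (2) the degree of
`Q` is `deg U + ∑ (2 g a_v - a_v(A)) deg v` with the conductor exponents `a_v ≥ 2` of `χ` and
`a_v(A)` of `A`, which does not depend on the characteristic for families with fixed degrees. -/
theorem result (k K : Type) [Field k] [Finite k] [Field K] [Algebra k K] (hK : IsCurveField k K)
    (P : Place k K → ℤ[X]) (hP : ∀ v, (P v).coeff 0 = 1) (U : ℤ[X])
    (hU : IsProduct k P (U : PowerSeries ℤ)) (ℓ : ℕ) [Fact ℓ.Prime] (B : Finset (Place k K))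
    (χ : Place k K → ℂ) (hχ : HasOrder ℓ B χ) (Q : ℂ[X]) (hQ : IsTwist k P χ (Q : PowerSeries ℂ)) :
    ∃ μ : ℂ → ℕ,
      ((ℓ : k) ≠ 0 → ∑ ξ ∈ nthRootsFinset ℓ (1 : ℂ), μ ξ ≤ mult ℓ (Nat.card k) U +
        ∑ v ∈ B, mult ℓ (Nat.card k) (expand ℤ (S.deg v) (P v))) ∧
      ((ℓ : k) = 0 → (∀ z : ℂ, Q.eval z = 0 → ‖z‖ * Nat.card k = 1) →
        ∑ ξ ∈ nthRootsFinset ℓ (1 : ℂ), μ ξ +
          2 * (unitDegree ℓ U + ∑ v ∈ B, S.deg v * unitDegree ℓ (P v)) ≤ Q.natDegree) ∧
      ∀ ξ : ℂ, ξ ^ ℓ = 1 →
        (∀ m ∈ Finset.Ico 1 ℓ, ∃ Q' : ℂ[X],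
          IsTwist k P (fun v => tw χ ξ v ^ m) (Q' : PowerSeries ℂ) ∧
            Q'.rootMultiplicity ((Nat.card k : ℂ)⁻¹) = μ ξ) ∧
        ∀ R : ℤ[X], IsArtin k ℓ P (tw χ ξ) U R →
          order (Nat.card k) R = order (Nat.card k) U + (ℓ - 1) * μ ξ := by
  classical
  have hl : ℓ.Prime := Fact.out
  have i0 : FF.IsFF k K := ⟨hK.essFiniteType, hK.trdeg_eq_one⟩
  have hfin : ∀ n, {v : Place k K | S.deg v ≤ n}.Finite := fun n => by
    have h := places_fin (k := k) (K := K) n
    simpa only [S.deg_eq] using h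
  have hd : ∀ v : Place k K, S.deg v ≠ 0 := fun v => by
    rw [S.deg_eq]
    exact (Pool.Agent.H525R3.FFp.deg_pos v).ne'
  have hUT : Pool.Agent.X278.SL.IsTw (fun v : Place k K => S.deg v) P (fun _ => (1 : ℤ))
      (U : PowerSeries ℤ) := by
    have h1 := hU
    unfold IsProduct at h1
    unfold Pool.Agent.X278.SL.IsTw
    rw [← h1]
    congr 2
    funext v
    rw [Pool.Agent.X278.SL.twF_one hd]
    ext n
    rw [PowerSeries.coeff_map]
    simp
  have hQT : Pool.Agent.X278.SL.IsTw (fun v : Place k K => S.deg v) P χ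
      (Q : PowerSeries ℂ) := hQ
  set q : ℕ := Nat.card k with hq
  have hqpos : 0 < q := Nat.card_pos
  have hq0 : (q : ℂ) ≠ 0 := by exact_mod_cast hqpos.ne'
  have hc0 : ∀ (l : ℕ) [Fact l.Prime] (p : ℤ[X]), p.coeff 0 = 1 →
      p.map (Int.castRingHom (ZMod l)) ≠ 0 := by
    intro l _ p hp h
    have h1 := congrArg (fun q : (ZMod l)[X] => q.coeff 0) h
    simp only [coeff_map, hp, map_one, coeff_zero] at h1
    exact one_ne_zero h1
  have hU0 : U.coeff 0 = 1 := by
    have h1 := hUT.cc hfin hd hP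
    rw [← PowerSeries.coeff_zero_eq_constantCoeff_apply, Polynomial.coeff_coe] at h1
    exact h1
  have hE0 : ∀ v, (expand ℤ (S.deg v) (P v)).coeff 0 = 1 := by
    intro v
    rw [coeff_expand (Nat.pos_of_ne_zero (hd v)), if_pos (dvd_zero _), Nat.zero_div, hP]
  refine ⟨fun ξ => Q.rootMultiplicity (ξ * (q : ℂ)⁻¹), ?_, ?_, ?_⟩
  · intro hlk
    have hnd : ¬ ℓ ∣ q := by
      intro h
      exact card_ne_zero_mod (k := k) hlk ((ZMod.natCast_eq_zero_iff _ _).2 h)
    have h1 := Pool.Agent.X278.SL.tame_bound hfin hd hP hl B hχ.1 hχ.2 hQT hUT hnd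
      (nthRootsFinset ℓ (1 : ℂ)) (fun ξ hξ => (mem_nthRootsFinset hl.pos _).1 hξ)
    refine h1.trans (le_of_eq ?_)
    unfold Pool.Agent.X278.SL.numS mult
    rw [Polynomial.map_mul, Polynomial.map_prod, rootMultiplicity_mul (mul_ne_zero (hc0 _ _ hU0)
      (Finset.prod_ne_zero_iff.2 fun v _ => hc0 _ _ (hE0 v)))]
    congr 1
    have h2 : ∀ (s : Finset (Place k K)), (∏ v ∈ s, (expand ℤ (S.deg v) (P v)).map
        (Int.castRingHom (ZMod ℓ))).rootMultiplicity ((q : ZMod ℓ)⁻¹) =
        ∑ v ∈ s, ((expand ℤ (S.deg v) (P v)).map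
          (Int.castRingHom (ZMod ℓ))).rootMultiplicity ((q : ZMod ℓ)⁻¹) := by
      intro s
      induction s using Finset.induction_on with
      | empty =>
        rw [Finset.prod_empty, Finset.sum_empty]
        exact rootMultiplicity_eq_zero (by simp)
      | insert v s hv ih =>
        rw [Finset.prod_insert hv, Finset.sum_insert hv, rootMultiplicity_mul (mul_ne_zero
          (hc0 _ _ (hE0 v)) (Finset.prod_ne_zero_iff.2 fun w _ => hc0 _ _ (hE0 w))), ih]
    exact h2 B
  · intro hlk hpure
    have hdvd : ℓ ∣ q := by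
      have h3 : Fintype k := Fintype.ofFinite k
      have h4 : CharP k ℓ := by
        obtain ⟨r, hr⟩ := CharP.exists k
        have h5 := (CharP.cast_eq_zero_iff k r ℓ).1 hlk
        have h6 : r = ℓ := ((Nat.dvd_prime hl).1 h5).resolve_left
          (haveI := hr; CharP.char_ne_one k r)
        rwa [← h6]
      rw [hq, Nat.card_eq_fintype_card]
      exact (CharP.cast_eq_zero_iff k ℓ _).1 (FiniteField.cast_card_eq_zero k)
    have h1 := Pool.Agent.X278.SL.wild_bound hfin hd hP hl B hχ.1 hχ.2 hQT hUT hdvd hpure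
      (nthRootsFinset ℓ (1 : ℂ))
      (fun ξ hξ => ⟨ℓ, hl.pos, (mem_nthRootsFinset hl.pos _).1 hξ⟩)
    have h2 : ((Pool.Agent.X278.SL.numS (fun v : Place k K => S.deg v) P B U).map
        (Int.castRingHom (ZMod ℓ))).natDegree =
        unitDegree ℓ U + ∑ v ∈ B, S.deg v * unitDegree ℓ (P v) := by
      unfold Pool.Agent.X278.SL.numS unitDegree
      rw [Polynomial.map_mul, Polynomial.map_prod, natDegree_mul (hc0 _ _ hU0)
        (Finset.prod_ne_zero_iff.2 fun v _ => hc0 _ _ (hE0 v)),
        natDegree_prod _ _ fun v _ => hc0 _ _ (hE0 v)]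
      congr 1
      refine Finset.sum_congr rfl fun v _ => ?_
      rw [Polynomial.map_expand, natDegree_expand, mul_comm]
    rw [h2] at h1
    exact h1
  · intro ξ hξ
    have h1 := hQT.rescale hfin hd ξ
    have h2 : PowerSeries.rescale ξ (Q : PowerSeries ℂ) =
        ((Q.comp (C ξ * X) : ℂ[X]) : PowerSeries ℂ) := by
      ext n
      rw [PowerSeries.coeff_rescale, Polynomial.coeff_coe, Polynomial.coeff_coe,
        comp_C_mul_X_coeff, mul_comm]
    rw [h2] at h1
    have hξ0 : ξ ≠ 0 := by
      rintro rfl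
      rw [zero_pow hl.ne_zero] at hξ
      exact zero_ne_one hξ
    have h3 : ∀ v, tw χ ξ v = 0 ∨ tw χ ξ v ^ ℓ = 1 := by
      intro v
      unfold tw
      by_cases hv : v ∈ B
      · left
        rw [hχ.1 v hv, zero_mul]
      · right
        rw [mul_pow, hχ.2 v hv, one_mul, ← pow_mul, mul_comm, pow_mul, hξ, one_pow]
    have h4 : (Q.comp (C ξ * X)).rootMultiplicity ((q : ℂ)⁻¹) =
        Q.rootMultiplicity (ξ * (q : ℂ)⁻¹) := by
      have h5 := rootMultiplicity_comp_C_mul_X_add_C Q ξ 0 ((q : ℂ)⁻¹) (IsUnit.mk0 _ hξ0)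
      rwa [C_0, add_zero, add_zero] at h5
    have h5 : ∀ m ∈ Finset.Ico 1 ℓ, ∃ Q' : ℂ[X],
        IsTwist k P (fun v => tw χ ξ v ^ m) (Q' : PowerSeries ℂ) ∧
            Q'.rootMultiplicity ((q : ℂ)⁻¹) = Q.rootMultiplicity (ξ * (q : ℂ)⁻¹) := by
      intro m hm
      rw [Finset.mem_Ico] at hm
      obtain ⟨Q', hQ'1, hQ'2⟩ := Pool.Agent.X278.SL.conj_twist hfin hd hP hl h3
        (Q := Q.comp (C ξ * X)) h1 q (by omega) hm.2
      exact ⟨Q', hQ'1, hQ'2.trans h4⟩
    refine ⟨h5, ?_⟩
    rintro R ⟨Λ, hΛ1, hΛ2⟩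
    choose! W hW1 hW2 using h5
    have h6 : ∀ m ∈ Finset.Ico 1 ℓ, Λ m = (W m : PowerSeries ℂ) := by
      intro m hm
      exact Pool.Agent.X278.SL.IsTw.unique (hΛ1 m hm) (hW1 m hm)
    rw [Finset.prod_congr rfl h6] at hΛ2
    have h7 : R.map (Int.castRingHom ℂ) = U.map (Int.castRingHom ℂ) *
        ∏ m ∈ Finset.Ico 1 ℓ, W m := by
      apply Polynomial.coe_injective
      rw [hΛ2, Polynomial.coe_mul]
      congr 1
      exact (map_prod (Polynomial.coeToPowerSeries.ringHom (R := ℂ)) _ _).symm
    have hm : ∀ G : ℤ[X], order q G =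
        (G.map (Int.castRingHom ℂ)).rootMultiplicity ((q : ℂ)⁻¹) := by
      intro G
      unfold order
      have h1 := Polynomial.eq_rootMultiplicity_map (p := G.map (Int.castRingHom ℚ))
        (algebraMap ℚ ℂ).injective ((q : ℚ)⁻¹)
      rw [h1, map_inv₀, map_natCast, Polynomial.map_map]
      congr 2
    rw [hm, hm, h7]
    have hUne : U.map (Int.castRingHom ℂ) ≠ 0 := by
      intro h
      have h1 := congrArg (fun q : ℂ[X] => q.coeff 0) h
      simp only [coeff_map, hU0, map_one, coeff_zero] at h1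
      exact one_ne_zero h1
    have hWne : ∀ m ∈ Finset.Ico 1 ℓ, W m ≠ 0 := by
      intro m hm' h
      have h1 := (Pool.Agent.X278.SL.IsTw.cc hfin hd hP (hW1 m hm'))
      rw [h] at h1
      simp at h1
    have h8 : ∀ s : Finset ℕ, s ⊆ Finset.Ico 1 ℓ →
        (∏ m ∈ s, W m).rootMultiplicity ((q : ℂ)⁻¹) =
          s.card * Q.rootMultiplicity (ξ * (q : ℂ)⁻¹) := by
      intro s
      induction s using Finset.induction_on with
      | empty =>
        intro _
        rw [Finset.prod_empty, Finset.card_empty, zero_mul]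
        exact rootMultiplicity_eq_zero (by simp)
      | insert v s hv ih =>
        intro hs
        have hs' : s ⊆ Finset.Ico 1 ℓ := fun x hx => hs (Finset.mem_insert_of_mem hx)
        have hv' := hs (Finset.mem_insert_self v s)
        rw [Finset.prod_insert hv, rootMultiplicity_mul (mul_ne_zero (hWne v hv')
          (Finset.prod_ne_zero_iff.2 fun w hw => hWne w (hs' hw))), ih hs', hW2 v hv',
          Finset.card_insert_of_notMem hv]
        ring
    rw [rootMultiplicity_mul (mul_ne_zero hUne (Finset.prod_ne_zero_iff.2 hWne)),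
      h8 _ (Finset.Subset.refl _), Nat.card_Ico]

end Pool.Agent.Results.MP_1d384c_nt.ConstantTwistsCyclic
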