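import Pool.Agent.X309.TwPack

/-!
# Analytic ranks and dimensions of the twists of an abelian variety over `ℚ`

Let `A / ℚ` be an abelian variety which becomes isogenous to a product of elliptic curves over `ℚ`
over some abelian extension of `ℚ`.  Then `L(A, s)` is a product of `L`-functions
`L(E_i, η_i, s)`, `i < g`, of elliptic curves `E_i` over `ℚ` twisted by primitive Dirichlet
characters `η_i`.  For a primitive Dirichlet character `χ` of order `d` let `A_χ` be the twist
`A ⊗ ℤ[χ]` of `A` by `χ`, an abelian variety over `ℚ` of dimension `g φ(d)` whose endomorphism ring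
contains `ℤ[ζ_d]`.  Its `L`-function is the product of the `L(A, χ^j, s)` over the conjugates `χ^j`
of `χ`, `(j, d) = 1`.

The sum of the analytic ranks of the `A_χ` over **all** `χ` of conductor at most `X` is at most
`C X^(-1/4 + ε)` times the sum of their dimensions.  (The general bound for the analytic rank of
an abelian variety over `ℚ` of dimension `n` and conductor `N` is `O(n + log N)`, which for the `A_χ` is
`log X` times the dimension.)

The analytic part (mean value of the central values over the conjugates of `χ`, Weil's bound for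
Kloosterman sums) is taken from the starting modules of helper192 and others (`W192.CY`,
`TH940`, ...).
-/

set_option autoImplicit false

open Complex UpperHalfPlane MatrixGroups CongruenceSubgroup

open Pool.Agent.X309.TwDefs

namespace Pool.Agent.Results.MP_1d384c_nt.RanksAgainstDimensions

/-- **Main theorem.** Let `A_i`, `i < g`, `g ≥ 1`, be twists of elliptic curves over `ℚ` by primitive
Dirichlet characters `η_i` (`TwistedCurve`) and let `M` be the product of their levels and of the
conductors of the `η_i`.  There is a function `B q χ`, the `L`-function of the abelian variety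
`A_χ` of dimension `g φ(ord χ)`, `A = ∏ A_i`, entire, not identically zero and given by its
Euler product for `Re s > 3/2` for all primitive `χ` of conductor `q` prime to `M` (`IsB`), such that
for every `ε > 0` there is `C` such that for all `X ≥ 1` the sum over all primitive `χ` of conductor at
most `X` prime to `M` of the orders of vanishing of `L(A_χ, s)` at `s = 1` is at most
`C X^(-1/4 + ε)` times the sum of the dimensions of the `A_χ`.

The hypothesis that the elliptic curve has a newform (`IsFormOf`, the modularity theorem) holds for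
the curve `X_0(14)`, so that for its twists by any characters and their products the result is
unconditional. -/
theorem result :
    (∀ (g : ℕ), 1 ≤ g → ∀ A : Fin g → TwistedCurve,
      ∃ B : (q : ℕ) → DirichletCharacter ℂ q → ℂ → ℂ, IsB A B ∧
        ∀ ε : ℝ, 0 < ε → ∃ C : ℝ, ∀ X : ℕ, 1 ≤ X → (Chars (level A) X).Finite ∧
          ((∑ᶠ x ∈ Chars (level A) X, analyticOrderNatAt (B x.1 x.2) 1 : ℕ) : ℝ) ≤
            C * (X : ℝ) ^ (-(1 / 4) + ε) *
              ((∑ᶠ x ∈ Chars (level A) X, g * (orderOf x.2).totient : ℕ) : ℝ)) ∧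
    ∃ f : CuspForm (Gamma0 14 : Subgroup (GL (Fin 2) ℝ)) 2, IsFormOf 5805 (-285714) 14 f := by
  refine ⟨fun g hg A => ?_, inst⟩
  classical
  obtain ⟨K, L, B, G, hL, hB, hBL, hGH, hG⟩ := pack A
  have hM1 := level_pos A
  set M := level A with hM
  refine ⟨B, hB, fun ε hε => ?_⟩
  obtain ⟨C, hC, h⟩ := Pool.Agent.X309.DC.power hM1 hGH hε
  refine ⟨C, fun X hX => ⟨Pool.Agent.X309.DC.prim_finite M X, ?_⟩⟩
  have h4 : (∑ᶠ x ∈ Chars M X, analyticOrderNatAt (B x.1 x.2) 1 : ℕ) =
      (∑ᶠ x ∈ Pool.Agent.Y683.AA.Prim M X,
        ∑ j ∈ Pool.Agent.X309.DC.ex (orderOf x.2), G x.1 (x.2 ^ j) : ℕ) := by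
    refine finsum_mem_congr rfl fun x hx => ?_
    exact (hG x.1 x.2 hx.1 hx.2.2.1 hx.2.2.2).2.1
  rw [h4]
  refine (h X hX).trans ?_
  have h5 : (∑ᶠ x ∈ Pool.Agent.Y683.AA.Prim M X, (orderOf x.2).totient : ℕ) ≤
      (∑ᶠ x ∈ Chars M X, g * (orderOf x.2).totient : ℕ) := by
    have hfin := Pool.Agent.X309.DC.prim_finite M X
    have hPC : Chars M X = Pool.Agent.Y683.AA.Prim M X := rfl
    rw [hPC, finsum_mem_eq_finite_toFinset_sum _ hfin, finsum_mem_eq_finite_toFinset_sum _ hfin]
    refine Finset.sum_le_sum fun x _ => ?_
    exact Nat.le_mul_of_pos_left _ hg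
  have h6 : ((∑ᶠ x ∈ Pool.Agent.Y683.AA.Prim M X, (orderOf x.2).totient : ℕ) : ℝ) ≤
      ((∑ᶠ x ∈ Chars M X, g * (orderOf x.2).totient : ℕ) : ℝ) := by exact_mod_cast h5
  exact mul_le_mul_of_nonneg_left h6 (by positivity)

end Pool.Agent.Results.MP_1d384c_nt.RanksAgainstDimensions
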