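import Pool.Agent.X309.TwPack

/-!
# Twists of abelian varieties over `ℚ` by almost all Dirichlet characters

Let `A / ℚ` be an abelian variety which becomes isogenous to a product of elliptic curves over `ℚ`
over some abelian extension of `ℚ`.  Then `L(A, s)` is a product of `L`-functions
`L(E_i, η_i, s)`, `i < g`, of elliptic curves `E_i` over `ℚ` twisted by primitive Dirichlet
characters `η_i`.  For a primitive Dirichlet character `χ` of order `d` let `A_χ` be the twist
`A ⊗ ℤ[χ]` of `A` by `χ`, an abelian variety over `ℚ` of dimension `g φ(d)` whose endomorphism ring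
contains `ℤ[ζ_d]` (it is the `χ`-part of the restriction of scalars of `A` from the cyclic field of
`χ`).  Its `L`-function is the product of the `L(A, χ^j, s)` over the conjugates `χ^j` of `χ`,
`(j, d) = 1`.

* On average over **all** primitive `χ` of conductor at most `X` (prime to the levels of the
  `E_i` and the conductors of the `η_i`) the order of vanishing of `L(A, χ, s)` at `s = 1` is at most
  `C exp(-c (log X)^(1/3))`;
* for all `χ` but a proportion of at most `C exp(-c (log X)^(1/3))`, `L(A_χ, 1) ≠ 0`.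

By Kato's theorem `L(A_χ, 1) ≠ 0` implies that `A_χ(ℚ)` is finite, so that the rank conjecture of
Birch and Swinnerton-Dyer is true for almost all `A_χ`.

The analytic part (mean value of the central values over the conjugates of `χ`, Weil's bound for
Kloosterman sums) is taken from the starting modules of helper192 and others (`W192.CY`,
`TH940`, ...), the count of the moduli with a small Carmichael function from `Y683.AA`.
-/

set_option autoImplicit false

open Complex UpperHalfPlane MatrixGroups CongruenceSubgroup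

open Pool.Agent.X309.TwDefs

namespace Pool.Agent.Results.MP_1d384c_nt.TwistsByAlmostAllCharacters

/-- **Main theorem.** Let `A_i`, `i < g`, be twists of elliptic curves over `ℚ` by primitive Dirichlet
characters `η_i` (`TwistedCurve`) and let `M` be the product of their levels and of the conductors of
the `η_i`.  There are functions `L q χ` (the twisted `L`-functions `L(A, χ, s)`, `A = ∏ A_i`) and
`B q χ` (the `L`-functions of the `A_χ`), entire, not identically zero and given by their Euler
products for `Re s > 3/2` for all primitive `χ` of conductor `q` prime to `M` (`IsL`, `IsB`), and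
constants `C`, `c > 0` such that for all `X ≥ 1` the set `Chars M X` of these `(q, χ)` with `q ≤ X` is
finite with at least `c (X / (1 + log X))²` elements, the average over it of the order of
vanishing of `L(A, χ, s)` at `s = 1` is at most `C exp(-c (log X)^(1/3))`, and the proportion of
the `χ` in it with `L(A_χ, 1) = 0` is at most `C exp(-c (log X)^(1/3))`.

The hypothesis that the elliptic curve has a newform (`IsFormOf`, the modularity theorem) holds for
the curve `X_0(14)`, so that for its twists by any characters and their products the result is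
unconditional. -/
theorem result :
    (∀ (g : ℕ) (A : Fin g → TwistedCurve),
      ∃ L B : (q : ℕ) → DirichletCharacter ℂ q → ℂ → ℂ, IsL A L ∧ IsB A B ∧
        (∀ q χ s, B q χ s = ∏ j ∈ conj χ, L q (χ ^ j) s) ∧
        ∃ C c : ℝ, 0 < C ∧ 0 < c ∧ ∀ X : ℕ, 1 ≤ X →
          (Chars (level A) X).Finite ∧
          c * ((X : ℝ) / (1 + Real.log X)) ^ 2 ≤ (Chars (level A) X).ncard ∧
          ((∑ᶠ x ∈ Chars (level A) X, analyticOrderNatAt (L x.1 x.2) 1 : ℕ) : ℝ) ≤
            C * Real.exp (-c * (Real.log X) ^ ((1 : ℝ) / 3)) * (Chars (level A) X).ncard ∧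
          (({x ∈ Chars (level A) X | B x.1 x.2 1 = 0}.ncard : ℕ) : ℝ) ≤
            C * Real.exp (-c * (Real.log X) ^ ((1 : ℝ) / 3)) * (Chars (level A) X).ncard) ∧
    ∃ f : CuspForm (Gamma0 14 : Subgroup (GL (Fin 2) ℝ)) 2, IsFormOf 5805 (-285714) 14 f := by
  refine ⟨fun g A => ?_, inst⟩
  classical
  obtain ⟨K, L, B, G, hL, hB, hBL, hGH, hG⟩ := pack A
  have hM1 := level_pos A
  set M := level A with hM
  refine ⟨L, B, hL, hB, hBL, ?_⟩
  obtain ⟨C1, c1, hC1, hc1, h1⟩ := Pool.Agent.Y683.AA.average hM1 hGH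
  obtain ⟨C2, c2, hC2, hc2, h2⟩ := Pool.Agent.X309.DC.proportion hM1 hGH
  obtain ⟨c3, hc3, h3⟩ := Pool.Agent.Y683.AA.ncard_ge M hM1
  set c : ℝ := min (min c1 c2) c3 with hc
  have hcpos : 0 < c := lt_min (lt_min hc1 hc2) hc3
  refine ⟨max C1 C2, c, lt_max_of_lt_left hC1, hcpos, fun X hX => ?_⟩
  have hu : 0 ≤ (Real.log X) ^ ((1 : ℝ) / 3) := Real.rpow_nonneg (Real.log_natCast_nonneg X) _
  have hmono : ∀ C' c' : ℝ, 0 < C' → C' ≤ max C1 C2 → c ≤ c' → ∀ n : ℕ,
      C' * Real.exp (-c' * (Real.log X) ^ ((1 : ℝ) / 3)) * n ≤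
        max C1 C2 * Real.exp (-c * (Real.log X) ^ ((1 : ℝ) / 3)) * n := by
    intro C' c' h4 h5 h6 n
    refine mul_le_mul_of_nonneg_right ?_ (Nat.cast_nonneg n)
    refine mul_le_mul h5 (Real.exp_le_exp.2 ?_) (Real.exp_pos _).le (h4.le.trans h5)
    nlinarith
  refine ⟨?_, ?_, ?_, ?_⟩
  · exact Pool.Agent.X309.DC.prim_finite M X
  · refine le_trans ?_ (h3 X hX)
    exact mul_le_mul_of_nonneg_right (min_le_right _ _) (sq_nonneg _)
  · have h4 : (∑ᶠ x ∈ Chars M X, analyticOrderNatAt (L x.1 x.2) 1 : ℕ) =
        (∑ᶠ x ∈ Pool.Agent.Y683.AA.Prim M X, G x.1 x.2 : ℕ) := by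
      refine finsum_mem_congr rfl fun x hx => ?_
      exact (hG x.1 x.2 hx.1 hx.2.2.1 hx.2.2.2).1
    rw [h4]
    refine (h1 X hX).trans ?_
    exact hmono C1 c1 hC1 (le_max_left _ _) ((min_le_left _ _).trans (min_le_left _ _)) _
  · have h4 : {x ∈ Chars M X | B x.1 x.2 1 = 0} = {x ∈ Pool.Agent.Y683.AA.Prim M X |
        ∃ j ∈ Pool.Agent.X309.DC.ex (orderOf x.2), G x.1 (x.2 ^ j) ≠ 0} := by
      ext x
      constructor
      · rintro ⟨hx, h0⟩
        exact ⟨hx, (hG x.1 x.2 hx.1 hx.2.2.1 hx.2.2.2).2.2.1 h0⟩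
      · rintro ⟨hx, h0⟩
        exact ⟨hx, (hG x.1 x.2 hx.1 hx.2.2.1 hx.2.2.2).2.2.2 h0⟩
    rw [h4]
    refine (h2 X hX).trans ?_
    exact hmono C2 c2 hC2 (le_max_right _ _) ((min_le_left _ _).trans (min_le_right _ _)) _

end Pool.Agent.Results.MP_1d384c_nt.TwistsByAlmostAllCharacters
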