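import Pool.Agent.X278.SL.Kida

/-!
# `L`-functions of abelian varieties over function fields in `p`-extensions, `p` the characteristic

Arbitrary Euler products over function fields of one variable over finite fields of characteristic `p`,
in particular the `L`-functions of all abelian varieties, over the Galois extensions of `p`-power degree.
-/

set_option autoImplicit false
set_option linter.all false
set_option maxHeartbeats 4000000

open Polynomial FF Module Pool.Agent.W343.BSD

namespace Pool.Agent.Results.MP_1d384c_nt.UnramifiedPTowers

section defs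

/-- `Λ(T) = ∏ P_v(T ^ (deg v))⁻¹`, the product over the places `v` of `K` over `k`. -/
def IsProduct (k : Type) {K : Type} [Field k] [Field K] [Algebra k K] (P : Place k K → ℤ[X])
    (Λ : PowerSeries ℤ) : Prop :=
  Λ * eulerProd (fun v : Place k K => S.deg v)
    (fun v => ((expand ℤ (S.deg v) (P v) : ℤ[X]) : PowerSeries ℤ)) = 1

/-- `P = ∏ (1 - α_i T)` and `Q = ∏ (1 - α_i ^ f T)` for complex numbers `α_i`. -/
def IsPower (f : ℕ) (P Q : ℤ[X]) : Prop :=
  ∃ (n : ℕ) (α : Fin n → ℂ), P.map (Int.castRingHom ℂ) = ∏ i, (1 - C (α i) * X) ∧
    Q.map (Int.castRingHom ℂ) = ∏ i, (1 - C (α i ^ f) * X)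

/-- The degree of the reduction of `P` modulo `p`: the number of the reciprocal zeros of `P` that are
units at a place above `p` (the ones of slope zero). -/
noncomputable def unitDegree (p : ℕ) (P : ℤ[X]) : ℕ :=
  (P.map (Int.castRingHom (ZMod p))).natDegree

/-- The number of the complex zeros `z` of `R`, with multiplicities, such that `Q z` is a root of
unity. If `R` is the `L`-function of an abelian variety over a function field with `Q` constants, then
this is the order of the zero at the central point of the `L`-function over all sufficiently large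
finite extensions of the field of constants. -/
noncomputable def geometricOrder (Q : ℕ) (R : ℤ[X]) : ℕ :=
  open Classical in
  ((R.map (Int.castRingHom ℂ)).roots.filter fun z => ∃ m : ℕ, 0 < m ∧ ((Q : ℂ) * z) ^ m = 1).card

/-- All complex zeros of `R` have the absolute value `1 / Q`. -/
def IsPure (Q : ℕ) (R : ℤ[X]) : Prop := ∀ z : ℂ, aeval z R = 0 → ‖z‖ * Q = 1

/-- The place `w` of `L` lies over the place `v` of `K`, with the ramification index `e`. The fields of
constants `k` and `k'` may be different. -/
def LiesOver {k K k' L : Type} [Field k] [Field K] [Algebra k K] [Field k'] [Field L]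
    [Algebra k' L] [Algebra K L] (w : Place k' L) (v : Place k K) (e : ℕ) : Prop :=
  0 < e ∧ ∀ f : K, w.ord (algebraMap K L f) = e * v.ord f

/-- `L` is a Galois extension of `K` of degree a power of `p`, with the field of constants `k'` and
with the ramification indices `e v`, which are `1` outside the finite set `B`. The `P_w` are integral
polynomials with `P_w(0) = 1` for the places `w` of `L`. For a place `w` over the place `v` outside the
finite set `T`, with residue degree `f`, the reciprocal zeros of `P_w` are the `f`-th powers of those of
`P_v`. For the places `v` of `T`, the polynomials `P_v` and `P_w` are `1` modulo `p`. -/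
structure IsLayer {k K : Type} (k' L : Type) [Field k] [Field K] [Algebra k K] [Field k'] [Field L]
    [Algebra k' L] [Algebra K L] (p : ℕ) (e : Place k K → ℕ) (B T : Finset (Place k K))
    (P : Place k K → ℤ[X]) (P' : Place k' L → ℤ[X]) : Prop where
  curve : IsCurveField k' L
  galois : IsGalois K L
  power : ∃ s : ℕ, finrank K L = p ^ s
  index : ∀ (v : Place k K) (w : Place k' L) (n : ℕ), LiesOver w v n → n = e v
  unramified : ∀ v, v ∉ B → e v = 1
  constant : ∀ w, (P' w).coeff 0 = 1
  factor : ∀ (v : Place k K) (w : Place k' L) (n f : ℕ), v ∉ T → LiesOver w v n →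
    Nat.card (S.Res w) = Nat.card (S.Res v) ^ f → IsPower f (P v) (P' w)
  trivial : ∀ v ∈ T, (P v).map (Int.castRingHom (ZMod p)) = 1 ∧
    ∀ (w : Place k' L) (n : ℕ), LiesOver w v n → (P' w).map (Int.castRingHom (ZMod p)) = 1

/-- The sum of the `([L : K] - [L : K] / e_v) deg v` times the unit degree of `P_v`, over the ramified
places. -/
noncomputable def ramification {k K : Type} [Field k] [Field K] [Algebra k K] (p n : ℕ)
    (e : Place k K → ℕ) (B : Finset (Place k K)) (P : Place k K → ℤ[X]) : ℕ :=
  ∑ v ∈ B, (n - n / e v) * (S.deg v * unitDegree p (P v))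

end defs

/-- Let `K` be the function field of a curve over the finite field `k` of characteristic `p`, and `P_v`
any integral polynomials with `P_v(0) = 1` for the places `v` of `K`, with the product
`Λ(T) = ∏ P_v(T ^ (deg v))⁻¹`, `Λ V = U`. The main example is an arbitrary abelian variety `A` over
`K` with its Euler factors `P_v(T) = det (1 - Frob_v T)` on the invariants of inertia, so that
`Λ = L(A/K, T)` is the polynomial `U` if `A` has no constant part (`V = 1`, Grothendieck).

Let `L` be a finite Galois extension of `K` of degree a power of THE CHARACTERISTIC `p`, with the field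
of constants `k'`, with Euler factors `P_w` as in `IsLayer`, and `Λ_L W = R`. If `L` is unramified over
`K` one takes `B` and `T` empty, and there is no condition on the reduction of `A`. In general the
factors at the ramified places outside `T` are those obtained from `P_v` (as for good reduction), and
at the places of `T` all factors are `1` modulo `p` (as for additive reduction over `K` and `L`, or for
good reduction of `p`-rank zero).

(1) The number of the unit roots of `L(A/L, T)` is given by an exact formula (it is
`[L : K] / [k' : k]` times the number for `K` if `L` is unramified). The prime `p` is the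
characteristic, and `[L : K]` may be arbitrarily large.

(2) If all zeros of `R` have the absolute value `1 / q'`, `q' = #k'` (Deligne), the number of the zeros
`ζ / q'`, `ζ` a root of unity, is at most the degree of `R` minus twice the number of the unit roots.
By Tate's inequality the rank of `A` over `L` and over all its constant extensions is at most this
number.

(3) The resulting bound for `A` over `L` in terms of `K`. If `L` is unramified over `K`, then
`[k' : k] deg R = [L : K] deg U` (Grothendieck, Ogg, Shafarevich), so that the rank of `A` over all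
constant extensions of `L` is at most `[L : K] / [k' : k]` times the number
`deg U - 2 unitDegree U`, the number of the zeros of `L(A/K, T)` of slopes between `0` and `2`.

(4) Suppose that `K` is a constant extension of degree `r` of a field `K₀` such that the polynomial
`U₀ = L(A/K₀, T)` has at least half as many unit roots as roots (`U` has as its reciprocal zeros the
`r`-th powers of those of `U₀`), and that `[k' : k] deg R ≤ [L : K] deg U`. Then
`L(A/L, ζ / q') ≠ 0` for ALL roots of unity `ζ`.

So if `A` is an abelian variety over `K₀` without constant part over the extensions considered, such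
that `deg U₀ ≤ 2 unitDegree U₀`, then for all finite extensions of the field of constants and for ALL
finite unramified Galois extensions `L` of `p`-power degree of the constant extensions of `K₀` one has
`rank A(L) = ord L(A/L, T) = 0`: the conjecture of Birch and Swinnerton-Dyer holds for `A` over all
finite subextensions of the maximal unramified pro-`p`-extension of `K₀` and of its constant extensions
(its Galois group over the algebraic closure of the constants is a free pro-`p`-group of rank equal to
the `p`-rank of the curve, Shafarevich), and the Tate–Shafarevich groups are finite (Kato–Trihan). For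
the universal elliptic curve over the function field `K₀` of the modular curve `X_1(N)` the condition
on `U₀`, the Hecke polynomial at `q` on the cusp forms of weight three, is that all these forms are
ordinary at `p`. The same holds for extensions ramified at places with `P_v = P_w = 1` for which the
degrees satisfy the inequality, that is, whose ramification is dominated by the wild ramification of
`A`. -/
theorem result (k K : Type) [Field k] [Finite k] [Field K] [Algebra k K] (hK : IsCurveField k K)
    (p : ℕ) [Fact p.Prime] (hp : (p : k) = 0)
    (P : Place k K → ℤ[X]) (hP : ∀ v, (P v).coeff 0 = 1) (Λ : PowerSeries ℤ)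
    (hΛ : IsProduct k P Λ) (U V : ℤ[X]) (hV : V.coeff 0 = 1)
    (hUV : Λ * (V : PowerSeries ℤ) = (U : PowerSeries ℤ))
    (k' L : Type) [Field k'] [Finite k'] [Field L] [Algebra k' L] [Algebra k k'] [Algebra k L]
    [Algebra K L] [IsScalarTower k K L] [IsScalarTower k k' L] (e : Place k K → ℕ)
    (B T : Finset (Place k K)) (P' : Place k' L → ℤ[X]) (hL : IsLayer k' L p e B T P P')
    (Λ' : PowerSeries ℤ) (hΛ' : IsProduct k' P' Λ') (R W : ℤ[X]) (hW : W.coeff 0 = 1)
    (hRW : Λ' * (W : PowerSeries ℤ) = (R : PowerSeries ℤ)) :
    (finrank k k' * unitDegree p R + finrank K L * unitDegree p V =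
      finrank k k' * unitDegree p W + finrank K L * unitDegree p U +
        ramification p (finrank K L) e B P) ∧
    (IsPure (Nat.card k') R →
      geometricOrder (Nat.card k') R + 2 * unitDegree p R ≤ R.natDegree) ∧
    (V = 1 → W = 1 → IsPure (Nat.card k') R →
      finrank k k' * geometricOrder (Nat.card k') R + 2 * (finrank K L * unitDegree p U) +
        2 * ramification p (finrank K L) e B P ≤ finrank k k' * R.natDegree) ∧
    (V = 1 → W = 1 → IsPure (Nat.card k') R →
      finrank k k' * R.natDegree ≤ finrank K L * U.natDegree →
      ∀ (r : ℕ) (U₀ : ℤ[X]), r ≠ 0 → IsPower r U₀ U → U₀.natDegree ≤ 2 * unitDegree p U₀ →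
        geometricOrder (Nat.card k') R = 0 ∧
        ∀ (ζ : ℂ) (m : ℕ), 0 < m → ζ ^ m = 1 → aeval (ζ * (Nat.card k' : ℂ)⁻¹) R ≠ 0) := by
  classical
  obtain ⟨s, hs⟩ := hL.power
  have hpp : p.Prime := Fact.out
  have i0 : FF.IsFF k K := ⟨hK.essFiniteType, hK.trdeg_eq_one⟩
  have i1 : FiniteDimensional K L := Module.finite_of_finrank_pos (by
    rw [hs]; exact pow_pos hpp.pos s)
  have i2 : FF.IsFF k L := isFF_of_finite (K := K)
  have i3 : FF.IsFF k' L := ⟨hL.curve.essFiniteType, hL.curve.trdeg_eq_one⟩
  have i4 := hL.galois
  have i5 : Module.Finite k k' := Module.Finite.of_finite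
  have hcpos : 0 < finrank k k' := finrank_pos
  have hΛ1 : Λ * eulerProd (fun v : Place k K => v.deg)
      (fun v => Pool.Agent.Y701.PE.sub v.deg (P v : PowerSeries ℤ)) = 1 := by
    have h1 := hΛ
    unfold IsProduct at h1
    simp only [S.deg_eq] at h1
    rw [← h1]
    congr 2
    funext v
    exact Pool.Agent.Y701.PE.sub_poly (Pool.Agent.H525R3.FFp.deg_pos v).ne' (P v)
  have hΛ'1 : Λ' * eulerProd (fun w : Place k' L => w.deg)
      (fun w => Pool.Agent.Y701.PE.sub w.deg (P' w : PowerSeries ℤ)) = 1 := by
    have h1 := hΛ'
    unfold IsProduct at h1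
    simp only [S.deg_eq] at h1
    rw [← h1]
    congr 2
    funext v
    exact Pool.Agent.Y701.PE.sub_poly (Pool.Agent.H525R3.FFp.deg_pos v).ne' (P' v)
  have key := Pool.Agent.X278.SL.kida_deg (k' := k') hs
    (fun v w n hov => hL.index v (upPlace (k' := k') w) n ⟨hov.1, hov.2⟩) B hL.unramified hP
    hL.constant T
    (fun v hv => ⟨(hL.trivial v hv).1, fun w n hov =>
      (hL.trivial v hv).2 (upPlace (k' := k') w) n ⟨hov.1, hov.2⟩⟩)
    (fun v w n f hv hov hd => hL.factor v (upPlace (k' := k') w) n f hv ⟨hov.1, hov.2⟩ (by
      have h2 : Nat.card (S.Res (upPlace (k' := k') w)) = Nat.card (S.Res w) := rfl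
      rw [h2, Pool.Agent.Y701.PE.card_res, Pool.Agent.Y701.PE.card_res, hd, pow_mul]))
    hΛ1 hΛ'1 hV hUV hW hRW
  have hram : ramification p (finrank K L) e B P = ∑ v ∈ B, (finrank K L - finrank K L / e v) *
      (v.deg * ((P v).map (Int.castRingHom (ZMod p))).natDegree) := by
    unfold ramification
    simp only [S.deg_eq]
    rfl
  have h1 : finrank k k' * unitDegree p R + finrank K L * unitDegree p V =
      finrank k k' * unitDegree p W + finrank K L * unitDegree p U +
        ramification p (finrank K L) e B P := by
    rw [hram]
    exact key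
  have hR0 : R.coeff 0 = 1 := Pool.Agent.X278.SL.cc_num
    (Pool.Agent.X278.SL.cc_euler hL.constant hΛ'1) hW hRW
  have hdvd : p ∣ Nat.card k' := by
    have h2 : (p : k') = 0 := by
      rw [← map_natCast (algebraMap k k'), hp, map_zero]
    have h3 : Fintype k' := Fintype.ofFinite k'
    have h4 : CharP k' p := by
      obtain ⟨r, hr⟩ := CharP.exists k'
      have h5 := (CharP.cast_eq_zero_iff k' r p).1 h2
      have h6 : r = p := ((Nat.dvd_prime hpp).1 h5).resolve_left
        (haveI := hr; CharP.char_ne_one k' r)
      rwa [← h6]
    rw [Nat.card_eq_fintype_card]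
    exact (CharP.cast_eq_zero_iff k' p _).1 (FiniteField.cast_card_eq_zero k')
  have h2 : IsPure (Nat.card k') R →
      geometricOrder (Nat.card k') R + 2 * unitDegree p R ≤ R.natDegree := fun hpure =>
    Pool.Agent.X278.SL.slope_bound hpp hdvd hR0 hpure
  have hone : unitDegree p 1 = 0 := by
    unfold unitDegree
    rw [Polynomial.map_one, natDegree_one]
  have h3 : V = 1 → W = 1 → IsPure (Nat.card k') R →
      finrank k k' * geometricOrder (Nat.card k') R + 2 * (finrank K L * unitDegree p U) +
        2 * ramification p (finrank K L) e B P ≤ finrank k k' * R.natDegree := by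
    intro hV1 hW1 hpure
    rw [hV1, hW1, hone, mul_zero, mul_zero, add_zero, zero_add] at h1
    have h4 := Nat.mul_le_mul_left (finrank k k') (h2 hpure)
    rw [mul_add] at h4
    have h5 : finrank k k' * (2 * unitDegree p R) = 2 * (finrank k k' * unitDegree p R) := by ring
    rw [h5, h1] at h4
    linarith
  refine ⟨h1, h2, h3, ?_⟩
  intro hV1 hW1 hpure hdeg r U₀ hr hpow hU₀
  obtain ⟨n, α, hα1, hα2⟩ := hpow
  obtain ⟨d1, d2⟩ := Pool.Agent.X278.SL.deg_power hpp hr hα1 hα2
  have d3 : unitDegree p U₀ = unitDegree p U := d2
  rw [d1, d3] at hU₀
  have h4 := h3 hV1 hW1 hpure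
  have h5 : finrank K L * U.natDegree ≤ finrank K L * (2 * unitDegree p U) :=
    Nat.mul_le_mul_left _ hU₀
  have h6 : finrank K L * (2 * unitDegree p U) = 2 * (finrank K L * unitDegree p U) := by ring
  rw [h6] at h5
  have h7 : finrank k k' * geometricOrder (Nat.card k') R = 0 := by omega
  have h8 : geometricOrder (Nat.card k') R = 0 :=
    (Nat.mul_eq_zero.1 h7).resolve_left hcpos.ne'
  refine ⟨h8, ?_⟩
  intro ζ m hm hζ hzero
  have hRne : R.map (Int.castRingHom ℂ) ≠ 0 := by
    intro h
    have h9 := congrArg (fun q : ℂ[X] => q.coeff 0) h
    simp only [coeff_map, hR0, map_one, coeff_zero] at h9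
    exact one_ne_zero h9
  have hQ : ((Nat.card k' : ℕ) : ℂ) ≠ 0 := by
    have : Nat.card k' ≠ 0 := Nat.card_pos.ne'
    exact_mod_cast this
  have hmem : ζ * ((Nat.card k' : ℕ) : ℂ)⁻¹ ∈ (R.map (Int.castRingHom ℂ)).roots := by
    rw [mem_roots hRne, IsRoot.def, eval_map]
    exact hzero
  unfold geometricOrder at h8
  rw [Multiset.card_eq_zero, Multiset.filter_eq_nil] at h8
  apply h8 _ hmem
  refine ⟨m, hm, ?_⟩
  rw [mul_comm ζ, ← mul_assoc, mul_inv_cancel₀ hQ, one_mul, hζ]

end Pool.Agent.Results.MP_1d384c_nt.UnramifiedPTowers
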